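import Mathlib

/-!
# A vertex-transitive graph without injective harmonic functions

The graph on `ℤ × Bool` in which `(i, a)` and `(j, b)` are adjacent iff `|i - j| = 1` is infinite,
connected, locally finite and vertex-transitive.  The vertices `(i, false)` and `(i, true)` have the
same neighbours, so every harmonic function takes the same value at both.
-/

namespace Pool.Agent.Results.MP_798444_co.NoInjectiveHarmonic

/-- `f : V → ℤ` is harmonic on the locally finite graph `G`: at every vertex its value is the mean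
of the values at the neighbours. -/
def IsHarmonic {V : Type} (G : SimpleGraph V) [G.LocallyFinite] (f : V → ℤ) : Prop :=
  ∀ v, (f v : ℚ) = (∑ u ∈ G.neighborFinset v, (f u : ℚ)) / (G.degree v : ℚ)

/-- The automorphism group of `G` acts transitively on the vertices. -/
def IsVertexTransitive {V : Type} (G : SimpleGraph V) : Prop :=
  ∀ u v : V, ∃ φ : G ≃g G, φ u = v

/-- The doubled two-way infinite path. -/
def G : SimpleGraph (ℤ × Bool) where
  Adj x y := y.1 = x.1 + 1 ∨ x.1 = y.1 + 1
  symm := ⟨fun _ _ h => h.symm⟩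
  loopless := ⟨fun x h => by rcases h with h | h <;> omega⟩

/-- The four neighbours of `x`. -/
def nbrs (x : ℤ × Bool) : Finset (ℤ × Bool) :=
  {(x.1 + 1, false), (x.1 + 1, true), (x.1 - 1, false), (x.1 - 1, true)}

theorem mem_nbrs (x y : ℤ × Bool) : y ∈ nbrs x ↔ G.Adj x y := by
  obtain ⟨j, b⟩ := y
  simp only [nbrs, Finset.mem_insert, Finset.mem_singleton, Prod.mk.injEq, G]
  constructor
  · rintro (⟨h, _⟩ | ⟨h, _⟩ | ⟨h, _⟩ | ⟨h, _⟩) <;> omega
  · intro h
    rcases h with h | h <;> cases b
    · exact Or.inl ⟨h, rfl⟩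
    · exact Or.inr (Or.inl ⟨h, rfl⟩)
    · exact Or.inr (Or.inr (Or.inl ⟨by omega, rfl⟩))
    · exact Or.inr (Or.inr (Or.inr ⟨by omega, rfl⟩))

/-- `G` is locally finite. -/
instance : G.LocallyFinite := fun x =>
  Fintype.ofFinset (nbrs x) (fun y => (mem_nbrs x y).trans (SimpleGraph.mem_neighborSet _ _ _).symm)

theorem neighborFinset_eq (i : ℤ) :
    G.neighborFinset (i, false) = G.neighborFinset (i, true) := by
  ext y
  rw [SimpleGraph.mem_neighborFinset, SimpleGraph.mem_neighborFinset]
  exact Iff.rfl

theorem vertexTransitive : IsVertexTransitive G := by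
  rintro ⟨i, a⟩ ⟨j, b⟩
  refine ⟨⟨(Equiv.prodCongr (Equiv.addRight (j - i)) (Equiv.swap a b)), ?_⟩, ?_⟩
  · rintro ⟨x, c⟩ ⟨y, d⟩
    simp only [G, Equiv.prodCongr_apply, Prod.map_apply, Equiv.coe_addRight]
    constructor <;> rintro (h | h) <;> [left; right; left; right] <;> omega
  · simp

theorem reach (a b : Bool) (n : ℕ) : ∀ i : ℤ, G.Reachable (i, a) (i + (n + 1 : ℕ), b) := by
  induction n with
  | zero =>
    intro i
    exact SimpleGraph.Adj.reachable (Or.inl (by simp))
  | succ n ih =>
    intro i
    have h1 : G.Adj (i, a) (i + 1, a) := Or.inl rfl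
    have h2 := ih (i + 1)
    have h3 : (i + 1 + ((n + 1 : ℕ) : ℤ), b) = (i + ((n + 1 + 1 : ℕ) : ℤ), b) := by
      push_cast; congr 1; ring
    exact h1.reachable.trans (h3 ▸ h2)

theorem connected : G.Connected := by
  haveI : Nonempty (ℤ × Bool) := ⟨(0, false)⟩
  refine SimpleGraph.Connected.mk ?_
  rintro ⟨i, a⟩ ⟨j, b⟩
  rcases lt_trichotomy i j with h | h | h
  · obtain ⟨n, hn⟩ : ∃ n : ℕ, j = i + ((n + 1 : ℕ) : ℤ) := ⟨(j - i - 1).toNat, by omega⟩
    rw [hn]
    exact reach a b n i
  · subst h
    have h1 : G.Adj (i, a) (i + 1, a) := Or.inl rfl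
    have h2 : G.Adj (i + 1, a) (i, b) := Or.inr rfl
    exact h1.reachable.trans h2.reachable
  · obtain ⟨n, hn⟩ : ∃ n : ℕ, i = j + ((n + 1 : ℕ) : ℤ) := ⟨(i - j - 1).toNat, by omega⟩
    rw [hn]
    exact (reach b a n j).symm

/-- There is an infinite, connected, locally finite, vertex-transitive graph on which no harmonic
function with integer values is injective. -/
theorem result : ∃ (V : Type) (G : SimpleGraph V) (_ : G.LocallyFinite),
    Infinite V ∧ G.Connected ∧ IsVertexTransitive G ∧
      ∀ f : V → ℤ, IsHarmonic G f → ¬ Function.Injective f := by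
  refine ⟨ℤ × Bool, G, inferInstance, inferInstance, connected, vertexTransitive, ?_⟩
  intro f hf hinj
  have h : (f (0, false) : ℚ) = f (0, true) := by
    have hd : G.degree (0, false) = G.degree (0, true) := by
      unfold SimpleGraph.degree
      rw [neighborFinset_eq]
    rw [hf (0, false), hf (0, true), neighborFinset_eq, hd]
  have h2 : f (0, false) = f (0, true) := by exact_mod_cast h
  have h3 := hinj h2
  simp at h3

end Pool.Agent.Results.MP_798444_co.NoInjectiveHarmonic
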